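import Pool.Agent.Helper87.PD.Stage
import Mathlib

set_option autoImplicit false

namespace Pool.Agent.Results.MP_55e671_nt.SubgroupOfProducts

open Filter Finset Pointwise

/-- The number of points of `A` in the square `v + {1, …, N}²`. -/
noncomputable def squareCount (A : Set (ℤ × ℤ)) (N : ℕ) (v : ℤ × ℤ) : ℕ :=
  {p : ℤ × ℤ | p ∈ A ∧ v.1 < p.1 ∧ p.1 ≤ v.1 + N ∧ v.2 < p.2 ∧ p.2 ≤ v.2 + N}.ncard

/-- The largest relative density of `A` in a square of side `N`. -/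
noncomputable def squareDensity (A : Set (ℤ × ℤ)) (N : ℕ) : ℝ :=
  ⨆ v : ℤ × ℤ, (squareCount A N v : ℝ) / (N : ℝ) ^ 2

/-- The upper Banach density of `A`: the limit of `squareDensity A N` for `N → ∞`. It is written as an
upper limit; the limit exists by `tendsto_squareDensity` below. -/
noncomputable def banachDensity (A : Set (ℤ × ℤ)) : ℝ :=
  limsup (squareDensity A) atTop

lemma finite_square (A : Set (ℤ × ℤ)) (N : ℕ) (v : ℤ × ℤ) :
    {p : ℤ × ℤ | p ∈ A ∧ v.1 < p.1 ∧ p.1 ≤ v.1 + N ∧ v.2 < p.2 ∧ p.2 ≤ v.2 + N} ⊆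
      (((Finset.Ioc v.1 (v.1 + N)) ×ˢ (Finset.Ioc v.2 (v.2 + N)) : Finset (ℤ × ℤ)) : Set (ℤ × ℤ)) := by
  intro p hp
  rw [Set.mem_ofPred_eq] at hp
  rw [Finset.mem_coe, Finset.mem_product, Finset.mem_Ioc, Finset.mem_Ioc]
  exact ⟨⟨hp.2.1, hp.2.2.1⟩, ⟨hp.2.2.2.1, hp.2.2.2.2⟩⟩

lemma squareCount_le (A : Set (ℤ × ℤ)) (N : ℕ) (v : ℤ × ℤ) : squareCount A N v ≤ N * N := by
  unfold squareCount
  refine le_trans (Set.ncard_le_ncard (finite_square A N v) (Finset.finite_toSet _)) ?_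
  rw [Set.ncard_coe_finset, Finset.card_product, Int.card_Ioc, Int.card_Ioc]
  simp

lemma ratio_le (A : Set (ℤ × ℤ)) (N : ℕ) (v : ℤ × ℤ) :
    (squareCount A N v : ℝ) / (N : ℝ) ^ 2 ≤ 1 := by
  apply div_le_one_of_le₀ _ (by positivity)
  have := squareCount_le A N v
  rw [sq]
  exact_mod_cast this

lemma bdd (A : Set (ℤ × ℤ)) (N : ℕ) :
    BddAbove (Set.range fun v : ℤ × ℤ => (squareCount A N v : ℝ) / (N : ℝ) ^ 2) := by
  refine ⟨1, ?_⟩
  rintro x ⟨v, rfl⟩
  exact ratio_le A N v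

lemma squareDensity_le (A : Set (ℤ × ℤ)) (N : ℕ) : squareDensity A N ≤ 1 :=
  ciSup_le (ratio_le A N)

lemma squareDensity_nonneg (A : Set (ℤ × ℤ)) (N : ℕ) : 0 ≤ squareDensity A N :=
  Real.iSup_nonneg (fun v => by positivity)

lemma squareCount_cover (A : Set (ℤ × ℤ)) (M N : ℕ) (hN : 0 < N) (v : ℤ × ℤ) :
    squareCount A M v ≤ ∑ ij ∈ (range (M / N + 1)) ×ˢ (range (M / N + 1)),
      squareCount A N (v.1 + N * ij.1, v.2 + N * ij.2) := by
  unfold squareCount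
  refine le_trans (Set.ncard_le_ncard (t := ⋃ ij ∈ (range (M / N + 1)) ×ˢ (range (M / N + 1)),
    {p : ℤ × ℤ | p ∈ A ∧ v.1 + N * (ij.1 : ℤ) < p.1 ∧ p.1 ≤ v.1 + N * (ij.1 : ℤ) + N ∧
      v.2 + N * (ij.2 : ℤ) < p.2 ∧ p.2 ≤ v.2 + N * (ij.2 : ℤ) + N}) ?_ ?_)
    (Finset.set_ncard_biUnion_le _ _)
  · intro p hp
    rw [Set.mem_ofPred_eq] at hp
    obtain ⟨hA, h1, h2, h3, h4⟩ := hp
    have key : ∀ w z : ℤ, w < z → z ≤ w + M → ∃ i : ℕ, i < M / N + 1 ∧
        w + N * (i : ℤ) < z ∧ z ≤ w + N * (i : ℤ) + N := by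
      intro w z hw hz
      obtain ⟨t, ht⟩ := Int.eq_ofNat_of_zero_le (show 0 ≤ z - w - 1 by omega)
      refine ⟨t / N, ?_, ?_, ?_⟩
      · have : t ≤ M := by omega
        exact Nat.lt_succ_of_le (Nat.div_le_div_right this)
      · have h5 : N * (t / N) ≤ t := Nat.mul_div_le t N
        have h6 : ((N * (t / N) : ℕ) : ℤ) ≤ (t : ℤ) := by exact_mod_cast h5
        push_cast at h6 ⊢
        linarith
      · have h5 : t < N * (t / N) + N := by
          have := Nat.lt_mul_div_succ t hN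
          rw [Nat.mul_add, Nat.mul_one] at this
          exact this
        have h6 : (t : ℤ) < ((N * (t / N) + N : ℕ) : ℤ) := by exact_mod_cast h5
        push_cast at h6 ⊢
        linarith
    obtain ⟨i, hi, hi1, hi2⟩ := key v.1 p.1 h1 h2
    obtain ⟨j, hj, hj1, hj2⟩ := key v.2 p.2 h3 h4
    rw [Set.mem_iUnion₂]
    refine ⟨(i, j), ?_, ?_⟩
    · rw [Finset.mem_product, Finset.mem_range, Finset.mem_range]; exact ⟨hi, hj⟩
    · rw [Set.mem_ofPred_eq]
      exact ⟨hA, hi1, hi2, hj1, hj2⟩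
  · apply Set.Finite.biUnion (Finset.finite_toSet _)
    intro ij _
    exact Set.Finite.subset (Finset.finite_toSet _)
      (finite_square A N (v.1 + N * (ij.1 : ℤ), v.2 + N * (ij.2 : ℤ)))

lemma squareDensity_comp (A : Set (ℤ × ℤ)) (M N : ℕ) (hM : 0 < M) (hN : 0 < N) :
    squareDensity A M ≤ (1 + (N : ℝ) * (1 / (M : ℝ))) ^ 2 * squareDensity A N := by
  have hM' : (0 : ℝ) < M := by exact_mod_cast hM
  have hN' : (0 : ℝ) < N := by exact_mod_cast hN
  apply ciSup_le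
  intro v
  rw [div_le_iff₀ (by positivity)]
  have h1 : (squareCount A M v : ℝ) ≤ ∑ ij ∈ (range (M / N + 1)) ×ˢ (range (M / N + 1)),
      (squareCount A N (v.1 + N * ij.1, v.2 + N * ij.2) : ℝ) := by
    exact_mod_cast squareCount_cover A M N hN v
  have h2 : ∀ w : ℤ × ℤ, (squareCount A N w : ℝ) ≤ squareDensity A N * (N : ℝ) ^ 2 := by
    intro w
    have := le_ciSup (bdd A N) w
    rw [div_le_iff₀ (by positivity)] at this
    exact this
  have h3 : (squareCount A M v : ℝ) ≤ ((M / N : ℕ) + 1 : ℝ) ^ 2 * (squareDensity A N * (N : ℝ) ^ 2) := by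
    refine le_trans h1 (le_trans (Finset.sum_le_sum (fun ij _ => h2 _)) ?_)
    rw [Finset.sum_const, Finset.card_product, Finset.card_range, nsmul_eq_mul]
    push_cast
    apply le_of_eq; ring
  have h4 : ((M / N : ℕ) : ℝ) * N ≤ M := by
    have := Nat.div_mul_le_self M N
    exact_mod_cast this
  have h5 : (((M / N : ℕ) : ℝ) + 1) * N ≤ (1 + (N : ℝ) * (1 / (M : ℝ))) * M := by
    have : (1 + (N : ℝ) * (1 / (M : ℝ))) * M = M + N := by field_simp
    rw [this]; nlinarith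
  have h6 : ((((M / N : ℕ) : ℝ) + 1) * N) ^ 2 ≤ ((1 + (N : ℝ) * (1 / (M : ℝ))) * M) ^ 2 :=
    pow_le_pow_left₀ (by positivity) h5 2
  have h7 := squareDensity_nonneg A N
  calc (squareCount A M v : ℝ) ≤ ((M / N : ℕ) + 1 : ℝ) ^ 2 * (squareDensity A N * (N : ℝ) ^ 2) := h3
    _ = ((((M / N : ℕ) : ℝ) + 1) * N) ^ 2 * squareDensity A N := by ring
    _ ≤ ((1 + (N : ℝ) * (1 / (M : ℝ))) * M) ^ 2 * squareDensity A N := by gcongr
    _ = _ := by ring

/-- The limit in the definition of the upper Banach density exists. -/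
lemma tendsto_squareDensity (A : Set (ℤ × ℤ)) :
    Tendsto (squareDensity A) atTop (nhds (banachDensity A)) := by
  have hub : IsBoundedUnder (· ≤ ·) atTop (squareDensity A) :=
    isBoundedUnder_of ⟨1, fun N => squareDensity_le _ N⟩
  have hlow : ∀ N : ℕ, 0 < N → banachDensity A ≤ squareDensity A N := by
    intro N hN
    have ht : Tendsto (fun M : ℕ => (1 + (N : ℝ) * (1 / (M : ℝ))) ^ 2 * squareDensity A N) atTop
        (nhds ((1 + (N : ℝ) * 0) ^ 2 * squareDensity A N)) := by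
      apply Tendsto.mul_const
      apply Tendsto.pow
      apply Tendsto.add tendsto_const_nhds
      exact tendsto_one_div_atTop_nhds_zero_nat.const_mul _
    have h1 : (1 + (N : ℝ) * 0) ^ 2 * squareDensity A N = squareDensity A N := by ring
    rw [h1] at ht
    rw [← ht.limsup_eq]
    apply limsup_le_limsup
    · filter_upwards [eventually_ge_atTop 1] with M hM
      exact squareDensity_comp A M N hM hN
    · exact IsBoundedUnder.isCoboundedUnder_le
        (isBoundedUnder_of ⟨0, fun N => squareDensity_nonneg A N⟩)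
    · exact ht.isBoundedUnder_le
  rw [Metric.tendsto_atTop]
  intro ε hε
  have hev : ∀ᶠ N : ℕ in atTop, squareDensity A N < banachDensity A + ε :=
    eventually_lt_of_limsup_lt (by
      have : limsup (squareDensity A) atTop = banachDensity A := rfl
      rw [this]; linarith) hub
  obtain ⟨N0, hN0⟩ := eventually_atTop.mp (hev.and (eventually_ge_atTop 1))
  refine ⟨N0, fun N hN => ?_⟩
  obtain ⟨h1, h2⟩ := hN0 N hN
  have h3 := hlow N h2
  rw [Real.dist_eq, abs_lt]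
  constructor <;> linarith

lemma banachDensity_empty : banachDensity ∅ = 0 := by
  have : squareDensity ∅ = fun _ => (0 : ℝ) := by
    funext N
    unfold squareDensity squareCount
    simp
  unfold banachDensity
  rw [this]
  exact limsup_const 0

/-- Dense squares of `A` in which many differences are unpopular. -/
lemma good_square (A : Set (ℤ × ℤ)) (δ : ℝ) (hδ : 0 < δ) (hA : δ ≤ banachDensity A) (c : ℝ)
    (V : Finset (ℤ × ℤ))
    (hV : ∀ v ∈ V, banachDensity {p | p ∈ A ∧ p + v ∈ A} < c) (n1 : ℕ) :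
    ∃ (v : ℤ × ℤ) (n : ℕ), n1 ≤ n ∧ (δ / 2) * ((n : ℝ) * n) ≤ squareCount A n v ∧
      ∀ w ∈ V, (squareCount {p | p ∈ A ∧ p + w ∈ A} n v : ℝ) ≤ c * ((n : ℝ) * n) := by
  have hfr : ∃ᶠ N in atTop, δ / 2 < squareDensity A N := by
    apply frequently_lt_of_lt_limsup
    · exact IsBoundedUnder.isCoboundedUnder_le
        (isBoundedUnder_of ⟨0, fun N => squareDensity_nonneg A N⟩)
    · have : banachDensity A = limsup (squareDensity A) atTop := rfl
      rw [← this]; linarith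
  have hev : ∀ᶠ N : ℕ in atTop, ∀ w ∈ V, squareDensity {p | p ∈ A ∧ p + w ∈ A} N < c := by
    rw [Finset.eventually_all]
    intro w hw
    exact eventually_lt_of_limsup_lt (hV w hw)
      (isBoundedUnder_of ⟨1, fun N => squareDensity_le _ N⟩)
  obtain ⟨n, hn1, hn2, hn3⟩ :=
    (hfr.and_eventually (hev.and (eventually_ge_atTop (max n1 1)))).exists
  obtain ⟨v, hv⟩ := exists_lt_of_lt_ciSup hn1
  have hnpos : (0 : ℝ) < n := by
    have : 1 ≤ n := le_trans (le_max_right _ _) hn3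
    exact_mod_cast this
  refine ⟨v, n, le_trans (le_max_left _ _) hn3, ?_, ?_⟩
  · have := hv.le
    rw [le_div_iff₀ (by positivity)] at this
    rw [← sq]; exact this
  · intro w hw
    have h1 := le_ciSup (bdd {p | p ∈ A ∧ p + w ∈ A} n) v
    have h2 : (squareCount {p | p ∈ A ∧ p + w ∈ A} n v : ℝ) / (n : ℝ) ^ 2 ≤ c :=
      le_trans h1 (hn2 w hw).le
    rw [div_le_iff₀ (by positivity)] at h2
    rw [← sq]; exact h2

/-- For every `δ > 0` there are `m ≥ 1` and `c > 0` such that for every set `A` of lattice points of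
upper Banach density at least `δ` every multiple of `m` is a product `x * y` with `(x, y) ∈ A - A`,
and even with `A ∩ (A - (x, y))` of upper Banach density at least `c`. -/
theorem result : ∀ δ : ℝ, 0 < δ → ∃ m : ℕ, 1 ≤ m ∧ ∃ c : ℝ, 0 < c ∧
    ∀ A : Set (ℤ × ℤ), δ ≤ banachDensity A → ∀ k : ℤ, ∃ x y : ℤ,
      (x, y) ∈ A - A ∧ x * y = m * k ∧ c ≤ banachDensity {p | p ∈ A ∧ p + (x, y) ∈ A} := by
  intro δ hδ
  by_contra hcon
  have hbad : ∀ m : ℕ, 1 ≤ m → ∀ c : ℝ, 0 < c → ∃ A : Set (ℤ × ℤ), δ ≤ banachDensity A ∧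
      ∃ k : ℤ, ∀ v : ℤ × ℤ, v.1 * v.2 = m * k → banachDensity {p | p ∈ A ∧ p + v ∈ A} < c := by
    intro m hm c hc
    by_contra h
    apply hcon
    refine ⟨m, hm, c, hc, ?_⟩
    intro A hA k
    by_contra h2
    apply h
    refine ⟨A, hA, k, ?_⟩
    rintro ⟨x, y⟩ hxy
    by_contra h3
    apply h2
    refine ⟨x, y, ?_, hxy, not_lt.mp h3⟩
    by_contra h4
    have hemp : {p : ℤ × ℤ | p ∈ A ∧ p + (x, y) ∈ A} = ∅ := by
      rw [Set.eq_empty_iff_forall_notMem]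
      intro p hp
      apply h4
      rw [Set.mem_sub]
      exact ⟨p + (x, y), hp.2, p, hp.1, by simp⟩
    rw [hemp, banachDensity_empty] at h3
    exact h3 hc
  have hF : ∀ N : ℕ, ∃ Φ : ℚ × ℚ → ℝ, (∀ v, 0 ≤ Φ v ∧ Φ v ≤ 1) ∧ Φ 0 = 1 ∧ (∀ v, Φ (-v) = Φ v) ∧
      (∀ (ι : Type) (s : Finset ι) (v : ι → ℚ × ℚ) (z : ι → ℝ),
        0 ≤ ∑ i ∈ s, ∑ j ∈ s, z i * z j * Φ (v i - v j)) ∧
      (∀ q : ℕ, 0 < q → q ≤ N → ∀ a b : ℚ,
        |Φ ((q : ℚ) * a, b / q) - Φ (a, b)| ≤ 1 / ((N : ℝ) + 1)) ∧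
      (∀ K c : ℕ, K * c ≤ N → (δ / 2) / (1 + 3 / ((N : ℝ) + 1)) ^ 2 * (K : ℝ) ^ 2 ≤
        ∑ i ∈ range K, ∑ j ∈ range K,
          Φ ((c : ℚ) * ((i : ℚ) - j), (c : ℚ) * ((i : ℚ) - j))) ∧
      Φ (1, 1) ≤ (1 / ((N : ℝ) + 1)) / (δ / 2) := by
    intro N
    obtain ⟨M, hM, hst⟩ := Pool.Agent.Helper87.PD.stage N
    obtain ⟨A, hA, k, hk⟩ := hbad M hM (1 / ((N : ℝ) + 1)) (by positivity)
    obtain ⟨V, hV, n1, hst2⟩ := hst k
    obtain ⟨v, n, hn, hd, hpop⟩ := good_square A δ hδ hA (1 / ((N : ℝ) + 1)) V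
      (fun w hw => hk w (hV w hw)) n1
    exact hst2 A (δ / 2) (1 / ((N : ℝ) + 1)) (by positivity) (by positivity) v.1 v.2 n hn hd hpop
  choose F hF using hF
  set 𝒰 : Ultrafilter ℕ := Filter.hyperfilter ℕ with h𝒰
  have hle : (𝒰 : Filter ℕ) ≤ atTop := Nat.hyperfilter_le_atTop
  have hlim : ∀ v : ℚ × ℚ, ∃ x : ℝ, Tendsto (fun N => F N v) 𝒰 (nhds x) := by
    intro v
    have hc : IsCompact (Set.Icc (0:ℝ) 1) := isCompact_Icc
    have hmem : ((𝒰.map (fun N => F N v) : Ultrafilter ℝ) : Filter ℝ) ≤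
        Filter.principal (Set.Icc (0:ℝ) 1) := by
      rw [Filter.le_principal_iff, Ultrafilter.coe_map, Filter.mem_map]
      apply Filter.univ_mem'
      intro N
      exact (hF N).1 v
    obtain ⟨x, _, hx⟩ := hc.ultrafilter_le_nhds _ hmem
    exact ⟨x, hx⟩
  choose Φ hΦ using hlim
  have hinvN : Tendsto (fun N : ℕ => (1:ℝ) / ((N:ℝ) + 1)) 𝒰 (nhds 0) :=
    tendsto_one_div_add_atTop_nhds_zero_nat.mono_left hle
  refine Pool.Agent.S16995.rigidity Φ (δ / 2) (by positivity) ?_ ?_ ?_ ?_ ?_ ?_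
  · refine tendsto_nhds_unique (hΦ 0) ?_
    have : (fun N => F N 0) = fun _ => (1:ℝ) := by
      funext N; exact (hF N).2.1
    rw [this]; exact tendsto_const_nhds
  · intro v
    refine tendsto_nhds_unique (hΦ (-v)) ?_
    have : (fun N => F N (-v)) = fun N => F N v := by
      funext N; exact (hF N).2.2.1 v
    rw [this]; exact hΦ v
  · intro ι s v z
    have ht : Tendsto (fun N => ∑ i ∈ s, ∑ j ∈ s, z i * z j * F N (v i - v j)) 𝒰
        (nhds (∑ i ∈ s, ∑ j ∈ s, z i * z j * Φ (v i - v j))) := by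
      apply tendsto_finsetSum; intro i _
      apply tendsto_finsetSum; intro j _
      exact (hΦ _).const_mul _
    exact ge_of_tendsto ht (Filter.Eventually.of_forall (fun N => (hF N).2.2.2.1 ι s v z))
  · intro q hq a b
    have h1 : Tendsto (fun N => F N ((q:ℚ) * a, b / q) - F N (a, b)) 𝒰
        (nhds (Φ ((q:ℚ) * a, b / q) - Φ (a, b))) := (hΦ _).sub (hΦ _)
    have h2 : Tendsto (fun N => F N ((q:ℚ) * a, b / q) - F N (a, b)) 𝒰 (nhds 0) := by
      apply squeeze_zero_norm' _ hinvN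
      have : ∀ᶠ N : ℕ in (𝒰 : Filter ℕ), q ≤ N := hle (Filter.eventually_ge_atTop q)
      filter_upwards [this] with N hN
      rw [Real.norm_eq_abs]
      exact (hF N).2.2.2.2.1 q hq hN a b
    have := tendsto_nhds_unique h1 h2
    linarith
  · intro K c
    have ht : Tendsto (fun N => ∑ i ∈ range K, ∑ j ∈ range K,
          F N ((c : ℚ) * ((i : ℚ) - j), (c : ℚ) * ((i : ℚ) - j))) 𝒰
        (nhds (∑ i ∈ range K, ∑ j ∈ range K,
          Φ ((c : ℚ) * ((i : ℚ) - j), (c : ℚ) * ((i : ℚ) - j)))) := by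
      apply tendsto_finsetSum; intro i _
      apply tendsto_finsetSum; intro j _
      exact hΦ _
    have ht2 : Tendsto (fun N : ℕ => (δ / 2) / (1 + 3 / ((N : ℝ) + 1)) ^ 2 * (K : ℝ) ^ 2) 𝒰
        (nhds ((δ / 2) / (1 + 3 * 0) ^ 2 * (K:ℝ) ^ 2)) := by
      apply Tendsto.mul_const
      apply Tendsto.div tendsto_const_nhds _ (by norm_num)
      apply Tendsto.pow
      apply Tendsto.add tendsto_const_nhds
      have : (fun N : ℕ => (3:ℝ) / ((N:ℝ) + 1)) = fun N : ℕ => 3 * (1 / ((N:ℝ) + 1)) := by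
        funext N; ring
      rw [this]
      exact hinvN.const_mul 3
    have h3 : (δ / 2) * (K:ℝ) ^ 2 = (δ / 2) / (1 + 3 * 0) ^ 2 * (K:ℝ) ^ 2 := by norm_num
    rw [h3]
    refine le_of_tendsto_of_tendsto ht2 ht ?_
    have : ∀ᶠ N : ℕ in (𝒰 : Filter ℕ), K * c ≤ N := hle (Filter.eventually_ge_atTop (K * c))
    filter_upwards [this] with N hN
    exact (hF N).2.2.2.2.2.1 K c hN
  · have h0 : 0 ≤ Φ (1, 1) :=
      ge_of_tendsto (hΦ (1, 1)) (Filter.Eventually.of_forall (fun N => ((hF N).1 (1, 1)).1))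
    have h1 : Tendsto (fun N : ℕ => (1 / ((N : ℝ) + 1)) / (δ / 2)) 𝒰 (nhds (0 / (δ / 2))) :=
      hinvN.div_const _
    have h2 : Φ (1, 1) ≤ 0 / (δ / 2) :=
      le_of_tendsto_of_tendsto (hΦ (1, 1)) h1
        (Filter.Eventually.of_forall (fun N => (hF N).2.2.2.2.2.2))
    rw [zero_div] at h2
    exact le_antisymm h2 h0

end Pool.Agent.Results.MP_55e671_nt.SubgroupOfProducts
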